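import Pool.Agent.R41.OddInd

/-!
# MP_007251_co: `m(n) = 2 ⌈n / 6⌉`
-/

set_option autoImplicit false

namespace Pool.Agent.Results.MP_007251_co.MinOdd

open SimpleGraph Finset

open Classical in
/-- The subgraph of `G` induced by `S` is odd: every vertex of `S` has an odd number of
neighbours in `S`. -/
def IsOddInduced {n : ℕ} (G : SimpleGraph (Fin n)) (S : Finset (Fin n)) : Prop :=
  ∀ v ∈ S, Odd #{w ∈ S | G.Adj v w}

/-- `mos(G)`: the largest number of vertices of an odd induced subgraph of `G`. -/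
noncomputable def mos {n : ℕ} (G : SimpleGraph (Fin n)) : ℕ :=
  sSup {k : ℕ | ∃ S : Finset (Fin n), IsOddInduced G S ∧ #S = k}

/-- A cograph: a graph without induced path on four vertices. -/
def IsCograph {n : ℕ} (G : SimpleGraph (Fin n)) : Prop :=
  IsEmpty (pathGraph 4 ↪g G)

/-- `m(n)`: the minimum of `mos(G)` over the cographs `G` on `n` vertices without isolated
vertices. -/
noncomputable def m (n : ℕ) : ℕ :=
  sInf {k : ℕ | ∃ G : SimpleGraph (Fin n), IsCograph G ∧ (∀ v, ∃ w, G.Adj v w) ∧ mos G = k}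

lemma bdd {n : ℕ} (G : SimpleGraph (Fin n)) :
    BddAbove {k : ℕ | ∃ S : Finset (Fin n), IsOddInduced G S ∧ #S = k} := by
  refine ⟨n, ?_⟩
  rintro k ⟨S, -, rfl⟩
  exact (Finset.card_le_univ S).trans (by simp)

lemma noP4_of_cograph {n : ℕ} {G : SimpleGraph (Fin n)} (hG : IsCograph G) :
    Pool.Agent.R41.OddInd.NoP4 G.Adj := by
  intro a b c d hab hac had hbc hbd hcd h1 h2 h3
  by_contra hcon
  push Not at hcon
  obtain ⟨h4, h5, h6⟩ := hcon
  refine hG.false ⟨⟨![a, b, c, d], ?_⟩, ?_⟩
  · intro i j hij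
    fin_cases i <;> fin_cases j <;> simp_all
  · intro i j
    show G.Adj (![a, b, c, d] i) (![a, b, c, d] j) ↔ _
    rw [pathGraph_adj]
    fin_cases i <;> fin_cases j <;>
      simp [h1, h2, h3, h4, h5, h6, h1.symm, h2.symm, h3.symm, G.adj_comm c a, G.adj_comm d b,
        G.adj_comm d a]

lemma mos_ge {n : ℕ} (G : SimpleGraph (Fin n)) (hG : IsCograph G) (hiso : ∀ v, ∃ w, G.Adj v w) :
    2 * ((n + 5) / 6) ≤ mos G := by
  classical
  obtain ⟨S, -, hS, hc⟩ := Pool.Agent.R41.OddInd.lower_bound G (noP4_of_cograph hG) n Finset.univ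
    (by simp) (fun v _ => by simpa using hiso v)
  have heven := hS.even G
  rw [Finset.card_univ, Fintype.card_fin] at hc
  have h1 : #S ≤ mos G := by
    refine le_csSup (bdd G) ⟨S, ?_, rfl⟩
    intro v hv
    have := hS v hv
    unfold Pool.Agent.R41.OddInd.nb at this
    convert this
  obtain ⟨t, ht⟩ := heven
  omega

/-- the block of the vertex `i` -/
def blk (n i : ℕ) : ℕ := if n % 6 = 1 ∧ i + 2 = n then i / 6 + 1 else i / 6

/-- Disjoint union of copies of `K_{2,2,2}` and one or two smaller complete multipartite graphs. -/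
def ex (n : ℕ) : SimpleGraph (Fin n) where
  Adj u v := blk n u.val = blk n v.val ∧ u.val % 3 ≠ v.val % 3
  symm := ⟨fun _ _ h => ⟨h.1.symm, h.2.symm⟩⟩
  loopless := ⟨fun _ h => h.2 rfl⟩

lemma ex_adj {n : ℕ} (u v : Fin n) :
    (ex n).Adj u v ↔ (blk n u.val = blk n v.val ∧ u.val % 3 ≠ v.val % 3) := Iff.rfl

lemma ex_cograph (n : ℕ) : IsCograph (ex n) := by
  refine ⟨fun f => ?_⟩
  have h01 : (ex n).Adj (f 0) (f 1) := f.map_rel_iff.2 (by rw [pathGraph_adj]; simp)
  have h12 : (ex n).Adj (f 1) (f 2) := f.map_rel_iff.2 (by rw [pathGraph_adj]; simp)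
  have h23 : (ex n).Adj (f 2) (f 3) := f.map_rel_iff.2 (by rw [pathGraph_adj]; simp)
  have h02 : ¬ (ex n).Adj (f 0) (f 2) := fun h => by
    have := f.map_rel_iff.1 h
    rw [pathGraph_adj] at this
    simp at this
  have h13 : ¬ (ex n).Adj (f 1) (f 3) := fun h => by
    have := f.map_rel_iff.1 h
    rw [pathGraph_adj] at this
    simp at this
  have h03 : ¬ (ex n).Adj (f 0) (f 3) := fun h => by
    have := f.map_rel_iff.1 h
    rw [pathGraph_adj] at this
    simp at this
  rw [ex_adj] at *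
  omega

lemma ex_noiso {n : ℕ} (hn : 2 ≤ n) (v : Fin n) : ∃ w, (ex n).Adj v w := by
  have hv := v.isLt
  by_cases h : v.val + 1 < n ∧ blk n (v.val + 1) = blk n v.val
  · refine ⟨⟨v.val + 1, h.1⟩, ?_⟩
    rw [ex_adj]
    exact ⟨h.2.symm, by simp only; omega⟩
  · have h1 : 1 ≤ v.val ∧ blk n (v.val - 1) = blk n v.val := by
      unfold blk at *
      split_ifs at * <;> omega
    refine ⟨⟨v.val - 1, by omega⟩, ?_⟩
    rw [ex_adj]
    exact ⟨h1.2.symm, by simp only; omega⟩

lemma blk_lt {n : ℕ} (v : Fin n) : blk n v.val < (n + 5) / 6 := by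
  have hv := v.isLt
  unfold blk
  split_ifs <;> omega

lemma ex_card_le {n : ℕ} (S : Finset (Fin n)) (hS : IsOddInduced (ex n) S) :
    #S ≤ 2 * ((n + 5) / 6) := by
  classical
  have key : #S ≤ 2 * #(Finset.range ((n + 5) / 6)) := by
    refine Finset.card_le_mul_card_image_of_maps_to (f := fun v : Fin n => blk n v.val)
      (fun v _ => Finset.mem_range.2 (blk_lt v)) 2 ?_
    intro b _
    set T := {a ∈ S | blk n a.val = b} with hT
    set t : ℕ → ℕ := fun r => #{a ∈ T | a.val % 3 = r} with ht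
    have ht2 : ∀ r, t r ≤ 2 := by
      intro r
      have : #{a ∈ T | a.val % 3 = r} ≤ #(Finset.range 2) := by
        refine Finset.card_le_card_of_injOn (fun a => (a.val / 3) % 2) ?_ ?_
        · intro a _
          simp only [Finset.coe_range, Set.mem_Iio]
          omega
        · intro a ha a' ha' h
          simp only [hT, Finset.coe_filter, Finset.mem_filter] at ha ha'
          obtain ⟨⟨-, h1⟩, h2⟩ := ha
          obtain ⟨⟨-, h3⟩, h4⟩ := ha'
          simp only at h
          have hlt := a.isLt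
          have hlt' := a'.isLt
          apply Fin.ext
          rw [← h3] at h1
          unfold blk at h1
          split_ifs at h1 <;> omega
      rw [Finset.card_range] at this
      exact this
    have hsum : #T = t 0 + t 1 + t 2 := by
      have h1 : #T = ∑ r ∈ Finset.range 3, #{a ∈ T | a.val % 3 = r} :=
        Finset.card_eq_sum_card_fiberwise (fun a _ => by
          simp only [Finset.coe_range, Set.mem_Iio]; omega)
      rw [h1, Finset.sum_range_succ, Finset.sum_range_succ, Finset.sum_range_succ,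
        Finset.sum_range_zero, zero_add]
    have hodd : ∀ r, 0 < t r → Odd (#T - t r) := by
      intro r hr
      obtain ⟨a, ha⟩ := Finset.card_pos.1 hr
      rw [Finset.mem_filter] at ha
      have haS : a ∈ S := (Finset.mem_filter.1 ha.1).1
      have hab : blk n a.val = b := (Finset.mem_filter.1 ha.1).2
      have h1 := hS a haS
      have h2 : ({w ∈ S | (ex n).Adj a w} : Finset (Fin n)) = {w ∈ T | ¬ w.val % 3 = r} := by
        ext w
        simp only [hT, Finset.mem_filter, ex_adj]
        rw [hab, ha.2]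
        constructor
        · rintro ⟨h3, h4, h5⟩
          exact ⟨⟨h3, h4.symm⟩, fun h => h5 h.symm⟩
        · rintro ⟨⟨h3, h4⟩, h5⟩
          exact ⟨h3, h4.symm, fun h => h5 h.symm⟩
      have h3 := Finset.card_filter_add_card_filter_not (s := T) (fun w : Fin n => w.val % 3 = r)
      have h4 : #T - t r = #{w ∈ T | ¬ w.val % 3 = r} := by
        simp only [ht]
        omega
      rw [h4]
      convert h1 using 2
      rw [← h2]
    have a0 := ht2 0
    have a1 := ht2 1
    have a2 := ht2 2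
    have b0 := hodd 0
    have b1 := hodd 1
    have b2 := hodd 2
    rw [hsum] at b0 b1 b2 ⊢
    simp only [Nat.odd_iff] at b0 b1 b2
    omega
  rwa [Finset.card_range] at key

lemma mos_ex_le (n : ℕ) : mos (ex n) ≤ 2 * ((n + 5) / 6) := by
  refine csSup_le ⟨0, ∅, fun v hv => by simp at hv, by simp⟩ ?_
  rintro k ⟨S, hS, rfl⟩
  exact ex_card_le S hS

/-- **Main result.** `m(n) = 2 ⌈n / 6⌉` for every `n ≥ 2`. -/
theorem result (n : ℕ) (hn : 2 ≤ n) : m n = 2 * ⌈(n : ℚ) / 6⌉₊ := by
  have hceil : ⌈(n : ℚ) / 6⌉₊ = (n + 5) / 6 := by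
    rw [Nat.ceil_eq_iff (by omega)]
    constructor
    · rw [lt_div_iff₀ (by norm_num)]
      have : ((n + 5) / 6 - 1) * 6 < n := by omega
      exact_mod_cast this
    · rw [div_le_iff₀ (by norm_num)]
      have : n ≤ (n + 5) / 6 * 6 := by omega
      exact_mod_cast this
  rw [hceil]
  apply le_antisymm
  · have h : m n ≤ mos (ex n) := Nat.sInf_le ⟨ex n, ex_cograph n, ex_noiso hn, rfl⟩
    exact h.trans (mos_ex_le n)
  · refine le_csInf ⟨_, ex n, ex_cograph n, ex_noiso hn, rfl⟩ ?_
    rintro k ⟨G, h1, h2, rfl⟩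
    exact mos_ge G h1 h2

end Pool.Agent.Results.MP_007251_co.MinOdd
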